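import Pool.Agent.Work.MP_0d9b2e_lc.Defs

open Cardinal Set

universe u

namespace Pool.Agent.Work.MP0d9b2e

variable {K : Type u} {W : Filter K}

theorem Pos.mono {A B : Set K} (h : Pos W A) (hAB : A ⊆ B) : Pos W B := fun hB =>
  h (Filter.mem_of_superset hB (compl_subset_compl.2 hAB))

theorem SatFilter.pos_univ (hW : SatFilter W) : Pos W univ := by
  unfold Pos; rw [compl_univ]; exact hW.proper

theorem SatFilter.iInter_mem (hW : SatFilter W) {ι : Type u} (hι : #ι < #K) (A : ι → Set K)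
    (hA : ∀ a, A a ∈ W) : (⋂ a, A a) ∈ W := by
  rw [← sInter_range]
  refine hW.complete _ (lt_of_le_of_lt mk_range_le hι) ?_
  rintro _ ⟨a, rfl⟩; exact hA a

theorem SatFilter.pos_iUnion (hW : SatFilter W) {ι : Type u} (hι : #ι < #K) (A : ι → Set K)
    (P : Set K) (hP : Pos W P) (hPA : P ⊆ ⋃ a, A a) : ∃ a, Pos W (P ∩ A a) := by
  by_contra hcon
  push Not at hcon
  have h1 : ∀ a, (P ∩ A a)ᶜ ∈ W := fun a => not_not.1 (hcon a)
  have h2 := hW.iInter_mem hι _ h1
  apply hP
  refine Filter.mem_of_superset h2 ?_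
  intro i hi hiP
  obtain ⟨a, ha⟩ := mem_iUnion.1 (hPA hiP)
  exact (mem_iInter.1 hi a) ⟨hiP, ha⟩

theorem SatFilter.null_of_small (hW : SatFilter W) (A : Set K) (hA : #A < #K) : Aᶜ ∈ W := by
  have h := hW.iInter_mem hA (fun x : A => ({(x : K)} : Set K)ᶜ) (fun x => hW.cofin x)
  refine Filter.mem_of_superset h ?_
  intro i hi hiA
  exact (mem_iInter.1 hi ⟨i, hiA⟩) rfl

theorem SatFilter.not_pos_of_small (hW : SatFilter W) (A : Set K) (hA : #A < #K) : ¬ Pos W A :=
  not_not.2 (hW.null_of_small A hA)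

theorem SatFilter.sat_index (hW : SatFilter W) {ι : Type u} (A : ι → Set K)
    (hA : ∀ a, Pos W (A a)) (hd : ∀ a b, a ≠ b → ¬ Pos W (A a ∩ A b)) : #ι ≤ ℵ₀ := by
  have hinj : Function.Injective A := by
    intro a b hab
    by_contra hne
    have := hd a b hne
    rw [← hab, inter_self] at this
    exact this (hA a)
  have hc : (range A).Countable := by
    refine hW.sat _ ?_ ?_
    · rintro _ ⟨a, rfl⟩; exact hA a
    · rintro _ ⟨a, rfl⟩ _ ⟨b, rfl⟩ hne
      exact hd a b (fun h => hne (by rw [h]))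
  have : Countable ι := by
    have h2 : Countable (range A) := hc
    exact (Function.Injective.countable (f := fun a => (⟨A a, a, rfl⟩ : range A))
      (fun a b h => hinj (congrArg Subtype.val h)))
  exact mk_le_aleph0_iff.2 this

/-- `e` is a family of pairwise almost everywhere distinct functions. -/
def AED (W : Filter K) {ι X : Type u} (e : ι → K → X) : Prop :=
  ∀ a b, a ≠ b → ¬ Pos W {i | e a i = e b i}

theorem SatFilter.ed_card (hW : SatFilter W) {ι κ X : Type u} (e : ι → K → X) (he : AED W e)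
    (d : κ → K → X) (hd : ∀ g : K → X, ∃ a, Pos W {i | g i = d a i}) : #ι ≤ #κ * ℵ₀ := by
  choose c hc using fun a => hd (e a)
  refine mk_le_mk_mul_of_mk_preimage_le c ?_
  intro b
  refine hW.sat_index (fun a : (c ⁻¹' {b} : Set ι) => {i | e a i = d (c a) i})
    (fun a => hc a) ?_
  intro a a' hne hp
  refine he a a' (fun h => hne (Subtype.ext h)) (hp.mono ?_)
  rintro i ⟨h1, h2⟩
  have h3 : c a = b := a.2
  have h4 : c a' = b := a'.2
  change e a i = e a' i
  have h1' : e a i = d (c a) i := h1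
  have h2' : e a' i = d (c a') i := h2
  rw [h1', h2', h3, h4]

/-- There is a family of at most `μ` functions `K → X` such that every function agrees with
one of them on a positive part of every positive set. -/
def Pre (W : Filter K) (X : Type u) (μ : Cardinal.{u}) : Prop :=
  ∃ (ι : Type u) (d : ι → K → X), #ι ≤ μ ∧
    ∀ (g : K → X) (A : Set K), Pos W A → ∃ a, Pos W {i | i ∈ A ∧ g i = d a i}

theorem Pre.mono {X : Type u} {μ ν : Cardinal.{u}} (h : Pre W X μ) (hμ : μ ≤ ν) : Pre W X ν := by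
  obtain ⟨ι, d, h1, h2⟩ := h
  exact ⟨ι, d, h1.trans hμ, h2⟩

theorem pre_all (X : Type u) : Pre W X (#X ^ #K) := by
  refine ⟨K → X, fun d => d, ?_, ?_⟩
  · rw [Cardinal.power_def]
  · intro g A hA
    exact ⟨g, hA.mono (fun i hi => ⟨hi, rfl⟩)⟩

theorem Pre.of_embedding {X Y : Type u} {μ : Cardinal.{u}} (h : Pre W Y μ) (φ : X ↪ Y) :
    Pre W X μ := by
  obtain ⟨ι, d, h1, h2⟩ := h
  classical
  by_cases hX : Nonempty X
  · have := hX
    refine ⟨ι, fun a i => Function.invFun φ (d a i), h1, ?_⟩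
    intro g A hA
    obtain ⟨a, ha⟩ := h2 (fun i => φ (g i)) A hA
    refine ⟨a, ha.mono ?_⟩
    rintro i ⟨hi, hgi⟩
    refine ⟨hi, ?_⟩
    simp only [← hgi]
    exact (Function.leftInverse_invFun φ.injective (g i)).symm
  · have : IsEmpty X := not_nonempty_iff.1 hX
    by_cases hK : Nonempty K
    · obtain ⟨k⟩ := hK
      refine ⟨PEmpty.{u+1}, fun a _ => PEmpty.elim a, ?_, ?_⟩
      · rw [mk_pempty]; exact zero_le
      · intro g; exact (IsEmpty.false (g k)).elim
    · have : IsEmpty K := not_nonempty_iff.1 hK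
      refine ⟨ι, fun a i => (IsEmpty.false i).elim, h1, ?_⟩
      intro g A hA
      obtain ⟨a, ha⟩ := h2 (fun i => (IsEmpty.false i).elim) A hA
      exact ⟨a, ha.mono (fun i _ => (IsEmpty.false i).elim)⟩

theorem Pre.of_card {X Y : Type u} {μ : Cardinal.{u}} (h : Pre W Y μ) (hXY : #X ≤ #Y) :
    Pre W X μ := by
  obtain ⟨φ⟩ := hXY
  exact h.of_embedding φ

theorem pre_small (hW : SatFilter W) (X : Type u) (hX : #X < #K) : Pre W X #X := by
  refine ⟨X, fun x _ => x, le_rfl, ?_⟩
  intro g A hA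
  obtain ⟨x, hx⟩ := hW.pos_iUnion hX (fun x => {i | g i = x}) A hA
    (fun i _ => mem_iUnion.2 ⟨g i, rfl⟩)
  exact ⟨x, hx⟩

end Pool.Agent.Work.MP0d9b2e
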