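import Pool.Agent.Work.MP_0d9b2e_lc.Basic

open Cardinal Set

universe u

namespace Pool.Agent.Work.MP0d9b2e

variable {K : Type u} {W : Filter K}

theorem mk_Iic_lt' {l : Cardinal.{u}} (hl : ℵ₀ ≤ l) (b : l.ord.ToType) : #(Iic b) < l := by
  have h := Cardinal.mk_Iic_lt b (by simp) (by simpa using hl)
  simpa using h

theorem pos_bounded (hW : SatFilter W) {l : Cardinal.{u}}
    (hcof : l.ord.cof ≠ #K) (g : K → l.ord.ToType) (A : Set K) (hA : Pos W A) :
    ∃ b, Pos W {i | i ∈ A ∧ g i ≤ b} := by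
  rcases lt_or_gt_of_ne hcof with hlt | hgt
  · obtain ⟨S, hS, hSc⟩ := Order.exists_cof_eq l.ord.ToType
    rw [Ordinal.cof_toType] at hSc
    obtain ⟨s, hs⟩ := hW.pos_iUnion (ι := S) (by rw [hSc]; exact hlt)
      (fun s => {i | g i ≤ (s : l.ord.ToType)}) A hA (by
        intro i _
        obtain ⟨s, hs, hgs⟩ := hS (g i)
        exact mem_iUnion.2 ⟨⟨s, hs⟩, hgs⟩)
    exact ⟨s, hs⟩
  · have hnc : ¬ IsCofinal (range g) := by
      intro hc
      have h1 := Order.cof_le hc
      rw [Ordinal.cof_toType] at h1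
      exact absurd (h1.trans mk_range_le) (not_le.2 hgt)
    rw [IsCofinal] at hnc
    push Not at hnc
    obtain ⟨b, hb⟩ := hnc
    refine ⟨b, hA.mono ?_⟩
    intro i hi
    exact ⟨hi, (hb _ ⟨i, rfl⟩).le⟩

theorem pre_step (hW : SatFilter W) {l : Cardinal.{u}} (hl : ℵ₀ ≤ l)
    (hcof : l.ord.cof ≠ #K) (hν : ∀ ν < l, Pre W ν.out l) : Pre W l.out l := by
  have hpre : ∀ b : l.ord.ToType, Pre W (Iic b) l := fun b =>
    (hν _ (mk_Iic_lt' hl b)).of_card (by rw [mk_out])
  choose ι d h1 h2 using hpre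
  refine Pre.of_card (Y := l.ord.ToType) ?_ (by simp)
  refine ⟨Σ b, ι b, fun x i => (d x.1 x.2 i : l.ord.ToType), ?_, ?_⟩
  · rw [mk_sigma]
    calc Cardinal.sum (fun b => #(ι b)) ≤ Cardinal.sum (fun _ : l.ord.ToType => l) :=
          Cardinal.sum_le_sum _ _ h1
      _ = l := by
          rw [Cardinal.sum_const']
          simp [mul_eq_self hl]
  · intro g A hA
    obtain ⟨b, hb⟩ := pos_bounded hW hcof g A hA
    obtain ⟨a, ha⟩ := h2 b (fun i => ⟨min (g i) b, mem_Iic.2 (min_le_right (g i) b)⟩) _ hb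
    refine ⟨⟨b, a⟩, ha.mono ?_⟩
    rintro i ⟨⟨hiA, hib⟩, hd⟩
    refine ⟨hiA, ?_⟩
    have h3 : min (g i) b = (d b a i : l.ord.ToType) := congrArg Subtype.val hd
    change g i = (d b a i : l.ord.ToType)
    rw [← h3, min_eq_left hib]

theorem bounded_power {r x l : Cardinal.{u}} (hr : ℵ₀ ≤ r) (hx : x < r.ord.cof) (hrl : r ≤ l)
    (h : ∀ ν < r, ν ^ x ≤ l) : r ^ x ≤ l := by
  have hl : ℵ₀ ≤ l := hr.trans hrl
  have key : r ^ x ≤ Cardinal.sum (fun b : r.ord.ToType => #(x.out → Iic b)) := by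
    have h1 : r ^ x = #(x.out → r.ord.ToType) := by
      rw [← Cardinal.power_def]; simp
    rw [h1, ← mk_sigma]
    have hb : ∀ s : x.out → r.ord.ToType, ∃ b, ∀ i, s i ≤ b := by
      intro s
      have hnc : ¬ IsCofinal (range s) := by
        intro hc
        have h1 := Order.cof_le hc
        rw [Ordinal.cof_toType] at h1
        have h2 : #(range s) ≤ x := mk_range_le.trans (by rw [mk_out])
        exact absurd (h1.trans h2) (not_le.2 hx)
      rw [IsCofinal] at hnc
      push Not at hnc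
      obtain ⟨b, hb⟩ := hnc
      exact ⟨b, fun i => (hb _ ⟨i, rfl⟩).le⟩
    choose b hb using hb
    refine mk_le_of_injective (f := fun s => (⟨b s, fun i => ⟨s i, hb s i⟩⟩ :
      Σ b : r.ord.ToType, (x.out → Iic b))) ?_
    intro s t hst
    let φ : (Σ b : r.ord.ToType, (x.out → Iic b)) → x.out → r.ord.ToType :=
      fun y i => (y.2 i : r.ord.ToType)
    have h3 : φ ⟨b s, fun i => ⟨s i, hb s i⟩⟩ = φ ⟨b t, fun i => ⟨t i, hb t i⟩⟩ :=
      congrArg φ hst
    exact h3
  refine key.trans ?_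
  calc Cardinal.sum (fun b : r.ord.ToType => #(x.out → Iic b))
      ≤ Cardinal.sum (fun _ : r.ord.ToType => l) := by
        refine Cardinal.sum_le_sum _ _ (fun b => ?_)
        rw [← Cardinal.power_def, mk_out]
        exact h _ (mk_Iic_lt' hr b)
    _ ≤ l := by
        rw [Cardinal.sum_const']
        simp only [mk_toType, card_ord]
        exact (mul_le_mul' hrl le_rfl).trans (mul_eq_self hl).le

end Pool.Agent.Work.MP0d9b2e
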