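import Pool.Agent.Work.MP_0d9b2e_lc.Dec

open Cardinal Set

universe u

namespace Pool.Agent.Work.MP0d9b2e

variable {K : Type u} {W : Filter K}

/-- functions `K → r` coded by their initial segments: the value is the full power. -/
theorem dec_power (hW : SatFilter W) {τ δ : Ordinal.{u}} (hd : Decides W τ δ)
    (hK : #K ≤ τ.card) (r : Cardinal.{u}) (h1 : r ^< #K ≤ τ.card) (h2 : τ.card ≤ r ^ #K) :
    δ.card = τ.card ^ #K := by
  have hl : ℵ₀ < τ.card := hW.unc.trans_le hK
  refine le_antisymm (dec_le_power hW hd hl.le) ?_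
  have h3 : τ.card ^ #K ≤ r ^ #K := by
    calc τ.card ^ #K ≤ (r ^ #K) ^ #K := power_le_power_right h2
      _ = r ^ #K := by rw [← power_mul, mul_eq_self hW.unc.le]
  refine h3.trans ?_
  obtain ⟨e⟩ : Nonempty (K ≃ (#K).ord.ToType) := by
    rw [← Cardinal.eq, mk_ord_toType]
  let O := (#K).ord.ToType
  let Cd := Σ b : O, (Iio b → r.out)
  have hCd : #Cd ≤ #τ.ToType := by
    rw [mk_toType, mk_sigma]
    calc Cardinal.sum (fun b : O => #(Iio b → r.out))
        ≤ Cardinal.sum (fun _ : O => r ^< #K) := by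
          refine Cardinal.sum_le_sum _ _ (fun b => ?_)
          rw [← Cardinal.power_def, mk_out]
          refine le_powerlt _ ?_
          have := Cardinal.mk_Iio_lt b (by simp [O])
          simpa [O] using this
      _ = #K * (r ^< #K) := by
          rw [Cardinal.sum_const', mk_ord_toType]
      _ ≤ τ.card * τ.card := mul_le_mul' hK h1
      _ = τ.card := mul_eq_self hl.le
  obtain ⟨φ⟩ := hCd
  have h4 := dec_lower hW hd (ι := O → r.out)
    (fun s i => φ ⟨e i, fun x => s x⟩) (by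
    intro s t hne
    have hex : ∃ x, s x ≠ t x := by
      by_contra hcon
      push Not at hcon
      exact hne (funext hcon)
    obtain ⟨x, hx⟩ := hex
    have hsub : {i | φ ⟨e i, fun y : Iio (e i) => s y⟩ = φ ⟨e i, fun y : Iio (e i) => t y⟩} ⊆
        e ⁻¹' (Iic x) := by
      intro i hi
      by_contra hcon
      have hlt : x < e i := not_le.1 hcon
      have h5 := φ.injective hi
      have h6 := eq_of_heq (Sigma.mk.inj h5).2
      exact hx (congrFun h6 ⟨x, hlt⟩)
    intro hp
    refine hW.not_pos_of_small (e ⁻¹' (Iic x)) ?_ (hp.mono hsub)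
    rw [mk_preimage_equiv]
    exact mk_Iic_lt' hW.unc.le x)
  have h5 : #(O → r.out) = r ^ #K := by
    rw [← Cardinal.power_def, mk_out, mk_ord_toType]
  rw [h5] at h4
  exact le_of_le_mul_aleph0 h4 (hl.trans_le h2)

theorem aleph_gt_of_strong {o : Ordinal.{u}} {k : Cardinal.{u}}
    (hs : ∀ ν < ℵ_ o, ν ^ k < ℵ_ o) : 2 ^ k < ℵ_ o :=
  hs 2 (lt_of_lt_of_le (natCast_lt_aleph0 (n := 2)) (aleph0_le_aleph o))

theorem pre_chain (hW : SatFilter W) (o : Ordinal.{u}) (hs : ∀ ν < ℵ_ o, ν ^ #K < ℵ_ o)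
    (hc : (ℵ_ o).ord.cof < #K) : ∀ ξ < (#K).ord, Pre W (ℵ_ (o + ξ)).out (ℵ_ (o + ξ)) := by
  have hko : #K < ℵ_ o := (cantor #K).trans (aleph_gt_of_strong hs)
  intro ξ
  induction ξ using WellFoundedLT.induction with
  | ind ξ ih =>
  intro hξ
  have hcof : (ℵ_ (o + ξ)).ord.cof ≠ #K := by
    rcases Ordinal.zero_or_succ_or_isSuccLimit ξ with h0 | ⟨η, hη⟩ | hlim
    · rw [h0, add_zero]; exact hc.ne
    · rw [← hη]
      have h1 : o + Order.succ η = (o + η) + 1 := by
        rw [← Order.succ_eq_add_one, Order.succ_eq_add_one, Order.succ_eq_add_one, add_assoc]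
      rw [h1, (isRegular_aleph_add_one (o + η)).cof_ord]
      refine ne_of_gt (hko.trans ?_)
      rw [aleph_lt_aleph]
      exact lt_of_le_of_lt (le_add_of_nonneg_right (zero_le (a := η))) (Order.lt_add_one_iff.2 le_rfl)
    · rw [ord_aleph, Ordinal.cof_omega (Ordinal.isSuccLimit_add o hlim),
        Ordinal.cof_add o (by
          intro h; rw [h] at hlim; exact Ordinal.not_isSuccLimit_zero hlim)]
      refine ne_of_lt (lt_of_le_of_lt (Ordinal.cof_le_card ξ) ?_)
      exact lt_ord.1 hξ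
  refine pre_step hW (aleph0_le_aleph _) hcof ?_
  intro ν hν
  rcases lt_or_ge ν (ℵ_ o) with hlt | hge
  · have h1 := pre_all (W := W) ν.out
    rw [mk_out] at h1
    refine h1.mono ((hs ν hlt).le.trans ?_)
    rw [aleph_le_aleph]
    exact le_add_of_nonneg_right (zero_le (a := ξ))
  · obtain ⟨p, rfl⟩ := mem_range_aleph_iff.2 ((aleph0_le_aleph o).trans hge)
    rw [aleph_le_aleph] at hge
    rw [aleph_lt_aleph] at hν
    obtain ⟨η, rfl⟩ : ∃ η, p = o + η := ⟨p - o, (Ordinal.add_sub_cancel_of_le hge).symm⟩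
    have hηξ : η < ξ := by simpa using hν
    exact (ih η hηξ (hηξ.trans hξ)).mono (by
      rw [aleph_le_aleph]; exact hν.le)

end Pool.Agent.Work.MP0d9b2e
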