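import Pool.Agent.Work.MP_0d9b2e_lc.Card

open Cardinal Set

universe u

namespace Pool.Agent.Work.MP0d9b2e

variable {K : Type u} {W : Filter K}

theorem le_of_le_mul_aleph0 {x y : Cardinal.{u}} (h : x ≤ y * ℵ₀) (hx : ℵ₀ < x) : x ≤ y := by
  rcases le_or_gt ℵ₀ y with hy | hy
  · rwa [mul_eq_left hy hy aleph0_ne_zero] at h
  · have : y * ℵ₀ ≤ ℵ₀ := (mul_le_mul' hy.le le_rfl).trans (mul_eq_self le_rfl).le
    exact absurd (h.trans this) (not_le.2 hx)

theorem dec_upper (hW : SatFilter W) {τ δ : Ordinal.{u}} (hd : Decides W τ δ)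
    {μ : Cardinal.{u}} (hp : Pre W τ.ToType μ) : δ.card ≤ μ * ℵ₀ := by
  obtain ⟨f, hf, -⟩ := hd
  obtain ⟨ι, d, h1, h2⟩ := hp
  have h3 : AED W f := by
    intro α β hne hp
    rcases lt_or_gt_of_ne hne with h | h
    · refine hp (Filter.mem_of_superset (hf α β h) ?_)
      intro i hi he
      exact absurd he (ne_of_lt hi)
    · refine hp (Filter.mem_of_superset (hf β α h) ?_)
      intro i hi he
      exact absurd he (ne_of_gt hi)
  have h4 := hW.ed_card f h3 d (fun g => by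
    obtain ⟨a, ha⟩ := h2 g univ hW.pos_univ
    exact ⟨a, ha.mono (fun i hi => hi.2)⟩)
  rw [mk_toType] at h4
  exact h4.trans (mul_le_mul' h1 le_rfl)

theorem dec_lower (hW : SatFilter W) {τ δ : Ordinal.{u}} (hd : Decides W τ δ)
    {ι : Type u} (e : ι → K → τ.ToType) (he : AED W e) : #ι ≤ δ.card * ℵ₀ := by
  obtain ⟨f, -, hf⟩ := hd
  have h4 := hW.ed_card e he f (fun g => by
    obtain ⟨a, ha⟩ := hf g univ hW.pos_univ
    exact ⟨a, ha.mono (fun i hi => hi.2)⟩)
  rwa [mk_toType] at h4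

theorem dec_le_of_pre (hW : SatFilter W) {τ δ : Ordinal.{u}} (hd : Decides W τ δ)
    {μ : Cardinal.{u}} (hμ : ℵ₀ ≤ μ) (hp : Pre W τ.ToType μ) : δ.card ≤ μ := by
  have := dec_upper hW hd hp
  rwa [mul_eq_left hμ hμ aleph0_ne_zero] at this

theorem dec_le_power (hW : SatFilter W) {τ δ : Ordinal.{u}} (hd : Decides W τ δ)
    (hτ : ℵ₀ ≤ τ.card) : δ.card ≤ τ.card ^ #K := by
  have h1 : Pre W τ.ToType (τ.card ^ #K) := by
    have := pre_all (W := W) τ.ToType
    rwa [mk_toType] at this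
  refine dec_le_of_pre hW hd ?_ h1
  refine hτ.trans (self_le_power _ ?_)
  exact (one_lt_aleph0.trans hW.unc).le

theorem dec_ge (hW : SatFilter W) {τ δ : Ordinal.{u}} (hd : Decides W τ δ)
    (hτ : ℵ₀ < τ.card) : τ.card ≤ δ.card := by
  have h := dec_lower hW hd (fun (x : τ.ToType) (_ : K) => x) (by
    intro a b hne hp
    refine hp ?_
    have : ({i : K | a = b} : Set K)ᶜ = Set.univ := by
      ext i; simp [hne]
    rw [this]; exact Filter.univ_mem)
  rw [mk_toType] at h
  exact le_of_le_mul_aleph0 h hτ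

theorem dec_small (hW : SatFilter W) {τ δ : Ordinal.{u}} (hd : Decides W τ δ)
    (hτ : τ.card < #K) : δ.card = τ.card := by
  have h1 : Pre W τ.ToType τ.card := by
    have := pre_small hW τ.ToType (by rwa [mk_toType])
    rwa [mk_toType] at this
  have h2 := dec_upper hW hd h1
  have h3 : δ.card < #K := lt_of_le_of_lt h2 (mul_lt_of_lt hW.unc.le hτ hW.unc)
  obtain ⟨f, hf, hg⟩ := hd
  have h4 : (⋂ p : {p : δ.ToType × δ.ToType // p.1 < p.2}, {i | f p.1.1 i < f p.1.2 i}) ∈ W := by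
    refine hW.iInter_mem ?_ _ (fun p => hf _ _ p.2)
    refine lt_of_le_of_lt (mk_subtype_le _) ?_
    simp only [mk_prod, lift_id, mk_toType]
    exact mul_lt_of_lt hW.unc.le h3 h3
  have h5 : (⋂ x : τ.ToType, {i | ∃ α, f α i = x}) ∈ W := by
    refine hW.iInter_mem (by rwa [mk_toType]) _ (fun x => ?_)
    by_contra hx
    have hp : Pos W {i | ∃ α, f α i = x}ᶜ := by
      unfold Pos; rwa [compl_compl]
    obtain ⟨α, hα⟩ := hg (fun _ => x) _ hp
    refine hα ?_
    have : ({i | i ∈ {i | ∃ α, f α i = x}ᶜ ∧ x = f α i} : Set K) = ∅ := by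
      ext i
      simp only [mem_ofPred_eq, mem_compl_iff, mem_empty_iff_false, iff_false, not_and]
      intro h1 h2
      exact h1 ⟨α, h2.symm⟩
    rw [this, compl_empty]; exact Filter.univ_mem
  have h6 := Filter.inter_mem h4 h5
  have hne : (W : Filter K).NeBot := ⟨fun h => hW.proper (by rw [h]; exact Filter.mem_bot)⟩
  obtain ⟨i, hi1, hi2⟩ := hne.nonempty_of_mem h6
  rw [mem_iInter] at hi1 hi2
  have hinj : Function.Injective (fun α => f α i) := by
    intro α β hab
    by_contra hne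
    rcases lt_or_gt_of_ne hne with h | h
    · exact absurd hab (ne_of_lt (hi1 ⟨(α, β), h⟩))
    · exact absurd hab (ne_of_gt (hi1 ⟨(β, α), h⟩))
  have hsurj : Function.Surjective (fun α => f α i) := fun x => hi2 x
  have := mk_congr (Equiv.ofBijective _ ⟨hinj, hsurj⟩)
  rwa [mk_toType, mk_toType] at this

theorem dec_diag (hW : SatFilter W) {τ δ : Ordinal.{u}} (hd : Decides W τ δ)
    (c : K → Set δ.ToType) (hc : ∀ i, #(c i) < τ.card) (hm : ∀ α, {i | α ∈ c i} ∈ W) : False := by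
  obtain ⟨f, -, hg⟩ := hd
  have hex : ∀ i, ∃ x : τ.ToType, ∀ α ∈ c i, f α i ≠ x := by
    intro i
    by_contra hcon
    push Not at hcon
    have h1 : #τ.ToType ≤ #(c i) := by
      choose p hp1 hp2 using hcon
      refine mk_le_of_injective (f := fun x => (⟨p x, hp1 x⟩ : c i)) ?_
      intro x y hxy
      have : p x = p y := congrArg Subtype.val hxy
      rw [← hp2 x, ← hp2 y, this]
    rw [mk_toType] at h1
    exact absurd (hc i) (not_lt.2 h1)
  choose g hg' using hex
  obtain ⟨α, hα⟩ := hg g univ hW.pos_univ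
  refine hα (Filter.mem_of_superset (hm α) ?_)
  intro i hi h
  exact hg' i α hi h.2.symm

end Pool.Agent.Work.MP0d9b2e
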