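import Mathlib

/-!
Definitions for MP_0d9b2e_lc: saturated filters and the value of the generic ultrapower at
an ordinal.
-/

open Cardinal

universe u

namespace Pool.Agent.Work.MP0d9b2e

/-- `A` is `W`-positive: its complement is not in `W`. -/
def Pos {K : Type u} (W : Filter K) (A : Set K) : Prop := Aᶜ ∉ W

/-- `W` is a proper filter on the uncountable set `K`, closed under intersections of fewer than
`#K` members, containing the complement of each point, and `ω₁`-saturated: every family of
positive sets with pairwise null intersections is countable. -/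
structure SatFilter {K : Type u} (W : Filter K) : Prop where
  unc : ℵ₀ < #K
  proper : ∅ ∉ W
  complete : ∀ S : Set (Set K), #S < #K → (∀ A ∈ S, A ∈ W) → ⋂₀ S ∈ W
  cofin : ∀ x : K, {x}ᶜ ∈ W
  sat : ∀ S : Set (Set K), (∀ A ∈ S, Pos W A) →
    (∀ A ∈ S, ∀ B ∈ S, A ≠ B → ¬ Pos W (A ∩ B)) → S.Countable

/-- The generic ultrapower by `W` maps the ordinal `τ` to the ordinal `δ` (forced by every
condition): there are functions `f α : K → τ` for `α < δ`, strictly increasing modulo `W` in
`α`, such that every function `g : K → τ` agrees, on a positive part of every positive set,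
with one of them. -/
def Decides {K : Type u} (W : Filter K) (τ δ : Ordinal.{u}) : Prop :=
  ∃ f : δ.ToType → K → τ.ToType,
    (∀ α β, α < β → {i | f α i < f β i} ∈ W) ∧
    ∀ (g : K → τ.ToType) (A : Set K), Pos W A → ∃ α, Pos W {i | i ∈ A ∧ g i = f α i}

end Pool.Agent.Work.MP0d9b2e
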