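import Pool.Agent.Work.MP_0d9b2e_lc.Chain

open Cardinal Set Ordinal

universe u

namespace Pool.Agent.Work.MP0d9b2e

variable {K : Type u} {W : Filter K}

theorem dec_gt_of_ladder (hW : SatFilter W) {τ δ : Ordinal.{u}} (hd : Decides W τ δ)
    {l : Cardinal.{u}} (hl : τ.card = l) (b : K → l.ord.ToType)
    (hb : ∀ x, {i | x < b i} ∈ W) : l < δ.card := by
  by_contra hcon
  have h1 : #δ.ToType ≤ #l.ord.ToType := by
    rw [mk_toType, mk_ord_toType]; exact not_lt.1 hcon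
  obtain ⟨ε⟩ := h1
  refine dec_diag hW hd (fun i => {α | ε α < b i}) ?_ (fun α => hb (ε α))
  intro i
  have h2 : #(Iio (b i)) < l := by
    have := Cardinal.mk_Iio_lt (b i) (by simp)
    simpa using this
  rw [hl]
  refine lt_of_le_of_lt ?_ h2
  refine mk_le_of_injective (f := fun α : {α | ε α < b i} => (⟨ε α, α.2⟩ : Iio (b i))) ?_
  intro x y hxy
  exact Subtype.ext (ε.injective (congrArg Subtype.val hxy))

theorem co_bounded (hW : SatFilter W) (e : K ≃ (#K).ord.ToType) (x : (#K).ord.ToType) :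
    {i | x < e i} ∈ W := by
  have h1 : #(e ⁻¹' (Iic x)) < #K := by
    rw [mk_preimage_equiv]
    exact mk_Iic_lt' hW.unc.le x
  refine Filter.mem_of_superset (hW.null_of_small _ h1) ?_
  intro i hi
  by_contra hcon
  exact hi (mem_preimage.2 (mem_Iic.2 (not_lt.1 hcon)))

theorem exists_equiv (K : Type u) : Nonempty (K ≃ (#K).ord.ToType) := by
  rw [← Cardinal.eq, mk_ord_toType]

theorem dec_gt_self (hW : SatFilter W) {τ δ : Ordinal.{u}} (hd : Decides W τ δ)
    (hτ : τ.card = #K) : #K < δ.card := by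
  obtain ⟨e⟩ := exists_equiv K
  exact dec_gt_of_ladder hW hd hτ e (co_bounded hW e)

theorem dec_gt_chain (hW : SatFilter W) {τ δ : Ordinal.{u}} (hd : Decides W τ δ)
    (o : Ordinal.{u}) (hτ : τ.card = ℵ_ (o + (#K).ord)) : ℵ_ (o + (#K).ord) < δ.card := by
  obtain ⟨e⟩ := exists_equiv K
  have hlim : Order.IsSuccLimit (#K).ord := isSuccLimit_ord hW.unc.le
  have hlt : ∀ i, (ω_ (o + (Ordinal.ToType.toOrd (e i)).1)) < (ℵ_ (o + (#K).ord)).ord := by
    intro i
    rw [ord_aleph, Ordinal.omega_lt_omega]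
    exact add_lt_add_right (Ordinal.ToType.toOrd (e i)).2 o
  refine dec_gt_of_ladder hW hd hτ
    (fun i => Ordinal.ToType.mk ⟨ω_ (o + (Ordinal.ToType.toOrd (e i)).1), hlt i⟩) ?_
  intro x
  have hx : (Ordinal.ToType.toOrd x).1 < ω_ (o + (#K).ord) := by
    have h0 : (Ordinal.ToType.toOrd x).1 < (ℵ_ (o + (#K).ord)).ord :=
      (Ordinal.ToType.toOrd x).2
    exact h0.trans_le (ord_aleph _).le
  rw [Ordinal.isNormal_omega.lt_iff_exists_lt (Ordinal.isSuccLimit_add o hlim)] at hx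
  obtain ⟨p, hp, hxp⟩ := hx
  rw [Ordinal.lt_add_iff hlim.ne_bot] at hp
  obtain ⟨η, hη, hpη⟩ := hp
  refine Filter.mem_of_superset (co_bounded hW e (Ordinal.ToType.mk ⟨η, hη⟩)) ?_
  intro i hi
  change x < Ordinal.ToType.mk _
  rw [← OrderIso.symm_apply_lt]
  change (Ordinal.ToType.toOrd x).1 < ω_ (o + (Ordinal.ToType.toOrd (e i)).1)
  refine hxp.trans_le (Ordinal.omega_le_omega.2 (hpη.trans ?_))
  have h2 : (⟨η, hη⟩ : Iio (#K).ord) < Ordinal.ToType.toOrd (e i) := by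
    have h3 : Ordinal.ToType.mk ⟨η, hη⟩ < e i := hi
    rwa [← OrderIso.lt_symm_apply] at h3
  have h4 : η < (Ordinal.ToType.toOrd (e i)).1 := h2
  exact add_le_add_right h4.le o

end Pool.Agent.Work.MP0d9b2e
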