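import Pool.Agent.Work.MP_0d9b2e_lc.Diag

open Cardinal Set Ordinal

universe u

namespace Pool.Agent.Work.MP0d9b2e

variable {K : Type u} {W : Filter K}

theorem power_trans {l r k : Cardinal.{u}} (hk : ℵ₀ ≤ k) (h : l ≤ r ^ k) : l ^ k ≤ r ^ k := by
  calc l ^ k ≤ (r ^ k) ^ k := power_le_power_right h
    _ = r ^ k := by rw [← power_mul, mul_eq_self hk]

/-- The value `δ.card` when the trivial bounds coincide. -/
theorem dec_eq_of_power_le (hW : SatFilter W) {τ δ : Ordinal.{u}} (hd : Decides W τ δ)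
    (hl : ℵ₀ < τ.card) (h : τ.card ^ #K ≤ τ.card) : δ.card = τ.card :=
  le_antisymm ((dec_le_power hW hd hl.le).trans h) (dec_ge hW hd hl)

theorem dec_eq_chain (hW : SatFilter W) {τ δ : Ordinal.{u}} (hd : Decides W τ δ)
    (hl : ℵ₀ < τ.card) (o : Ordinal.{u}) (hs : ∀ ν < ℵ_ o, ν ^ #K < ℵ_ o)
    (hc : (ℵ_ o).ord.cof < #K) (h1 : ℵ_ o ≤ τ.card) (h2 : τ.card < ℵ_ (o + (#K).ord)) :
    δ.card = τ.card := by
  obtain ⟨p, hp⟩ := mem_range_aleph_iff.2 hl.le
  rw [← hp, aleph_le_aleph] at h1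
  rw [← hp, aleph_lt_aleph] at h2
  obtain ⟨ξ, rfl⟩ : ∃ ξ, p = o + ξ := ⟨p - o, (Ordinal.add_sub_cancel_of_le h1).symm⟩
  have hξ : ξ < (#K).ord := by simpa using h2
  have h3 := pre_chain hW o hs hc ξ hξ
  rw [hp] at h3
  have h4 : Pre W τ.ToType τ.card := h3.of_card (by rw [mk_out, mk_toType])
  exact le_antisymm (dec_le_of_pre hW hd hl.le h4) (dec_ge hW hd hl)

theorem outside (W W₁ : Filter K) (hW : SatFilter W) (hW₁ : SatFilter W₁)
    (τ δ δ₁ : Ordinal.{u}) (hd : Decides W τ δ) (hd₁ : Decides W₁ τ δ₁)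
    (hne : δ.card ≠ δ₁.card) :
    (#K ≤ τ.card ∧ τ.card < 2 ^< #K ∧ Order.succ (Order.succ #K) ≤ 2 ^ #K) ∨
    ∃ o : Ordinal.{u}, (ℵ_ o).ord.cof < #K ∧ (∀ ν < ℵ_ o, ν ^ #K < ℵ_ o) ∧
      ℵ_ (o + (#K).ord) ≤ τ.card ∧ τ.card < ℵ_ o ^ #K ∧
      Order.succ (ℵ_ (o + (#K).ord)) < ℵ_ o ^ #K := by
  have hk := hW.unc
  rcases lt_or_ge τ.card #K with hs | hK
  · exact absurd ((dec_small hW hd hs).trans (dec_small hW₁ hd₁ hs).symm) hne
  have hl : ℵ₀ < τ.card := hk.trans_le hK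
  have hlt : τ.card < τ.card ^ #K := by
    by_contra hcon
    have h := not_lt.1 hcon
    exact hne ((dec_eq_of_power_le hW hd hl h).trans (dec_eq_of_power_le hW₁ hd₁ hl h).symm)
  let S : Set Cardinal.{u} := {r | τ.card ≤ r ^ #K}
  have hS : τ.card ∈ S := hlt.le
  obtain ⟨r, hr, hmin⟩ : ∃ r, τ.card ≤ r ^ #K ∧ ∀ ν, ν < r → ν ^ #K < τ.card := by
    refine ⟨sInf S, csInf_mem (⟨_, hS⟩ : S.Nonempty), ?_⟩
    intro ν hν
    by_contra hcon
    exact absurd (csInf_le' (show ν ∈ S from not_lt.1 hcon)) (not_le.2 hν)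
  have hrl : r ≤ τ.card := by
    by_contra hcon
    exact absurd (hmin _ (not_le.1 hcon)) (not_lt.2 hlt.le)
  have h2k : ∀ {x : Cardinal.{u}}, x ≤ #K → x ^ #K ≤ 2 ^ #K := fun {x} hx =>
    (power_le_power_right hx).trans (power_self_eq hk.le).le
  rcases lt_or_ge r ℵ₀ with hfin | hinf
  · left
    have h2 : τ.card ≤ 2 ^ #K := hr.trans (h2k (hfin.trans hk).le)
    have h3 : τ.card < 2 ^< #K := by
      by_contra hcon
      have h := not_lt.1 hcon
      exact hne ((dec_power hW hd hK 2 h h2).trans (dec_power hW₁ hd₁ hK 2 h h2).symm)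
    refine ⟨hK, h3, ?_⟩
    by_contra hcon
    have h4 : 2 ^ #K ≤ Order.succ #K := Order.lt_succ_iff.1 (not_le.1 hcon)
    have h5 : (2 : Cardinal.{u}) ^< #K ≤ 2 ^ #K := by
      rw [powerlt_le]
      intro x hx
      exact power_le_power_left two_ne_zero hx.le
    have h6 : τ.card = #K :=
      le_antisymm (Order.lt_succ_iff.1 (h3.trans_le (h5.trans h4))) hK
    have h7 : τ.card ^ #K ≤ Order.succ #K := (h2k h6.le).trans h4
    have e1 : δ.card = Order.succ #K := le_antisymm ((dec_le_power hW hd hl.le).trans h7)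
      (Order.succ_le_of_lt (dec_gt_self hW hd h6))
    have e2 : δ₁.card = Order.succ #K := le_antisymm ((dec_le_power hW₁ hd₁ hl.le).trans h7)
      (Order.succ_le_of_lt (dec_gt_self hW₁ hd₁ h6))
    exact hne (e1.trans e2.symm)
  · right
    have hstrong : ∀ ν < r, ν ^ #K < r := by
      intro ν hν
      by_contra hcon
      exact absurd (hr.trans (power_trans hk.le (not_lt.1 hcon))) (not_le.2 (hmin ν hν))
    have hlr : τ.card < r ^ #K := by
      refine lt_of_lt_of_le hlt (power_trans hk.le hr)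
    have hcof : r.ord.cof < #K := by
      by_contra hcon
      have h1 : r ^< #K ≤ τ.card := by
        rw [powerlt_le]
        intro x hx
        refine (bounded_power hinf (hx.trans_le (not_lt.1 hcon)) le_rfl ?_).trans hrl
        intro ν hν
        rcases eq_or_ne ν 0 with h0 | h0
        · rw [h0]
          exact (power_le_power_right zero_le_one).trans
            (by rw [one_power]; exact one_le_aleph0.trans hinf)
        · exact (power_le_power_left h0 hx.le).trans (hstrong ν hν).le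
      exact hne ((dec_power hW hd hK r h1 hr).trans (dec_power hW₁ hd₁ hK r h1 hr).symm)
    obtain ⟨o, rfl⟩ := mem_range_aleph_iff.2 hinf
    have hge : ℵ_ (o + (#K).ord) ≤ τ.card := by
      by_contra hcon
      have h := not_le.1 hcon
      exact hne ((dec_eq_chain hW hd hl o hstrong hcof hrl h).trans
        (dec_eq_chain hW₁ hd₁ hl o hstrong hcof hrl h).symm)
    refine ⟨o, hcof, hstrong, hge, hlr, ?_⟩
    by_contra hcon
    have h4 : ℵ_ o ^ #K ≤ Order.succ (ℵ_ (o + (#K).ord)) := not_lt.1 hcon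
    have h6 : τ.card = ℵ_ (o + (#K).ord) :=
      le_antisymm (Order.lt_succ_iff.1 (hlr.trans_le h4)) hge
    have h7 : τ.card ^ #K ≤ Order.succ (ℵ_ (o + (#K).ord)) := (power_trans hk.le hr).trans h4
    have e1 : δ.card = Order.succ (ℵ_ (o + (#K).ord)) :=
      le_antisymm ((dec_le_power hW hd hl.le).trans h7)
        (Order.succ_le_of_lt (dec_gt_chain hW hd o h6))
    have e2 : δ₁.card = Order.succ (ℵ_ (o + (#K).ord)) :=
      le_antisymm ((dec_le_power hW₁ hd₁ hl.le).trans h7)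
        (Order.succ_le_of_lt (dec_gt_chain hW₁ hd₁ o h6))
    exact hne (e1.trans e2.symm)

end Pool.Agent.Work.MP0d9b2e
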